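import Pool.Agent.H3.SE.TA
import Pool.Agent.H3.SE.TX
import Pool.Agent.H42.SE.TBa
import Pool.Agent.H12.SE.TBc
import Pool.Agent.H35.SE.TBe
import Pool.Agent.H71.SE.TCa
import Pool.Agent.H16.SE.TCb
import Pool.Agent.H50.SE.TCc
import Pool.Agent.H33.SE.TCd
import Pool.Agent.H33.SE.TDa
import Pool.Agent.H84.SE.TDb
import Pool.Agent.H33.SE.TEa
import Pool.Agent.H69.SE.TEb
import Pool.Agent.H48.SE.TEc
import Pool.Agent.H13.SE.TFa
import Pool.Agent.H12.SE.TF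
import Pool.Agent.H51.SE.TGa
import Pool.Agent.H31.SE.TGb
import Pool.Agent.H49.SE.TGc
import Pool.Agent.H74.SE.TG
import Pool.Agent.H31.SE.THa
import Pool.Agent.H34.SE.THd
import Pool.Agent.H49.SE.THb
import Pool.Agent.H74.SE.TI
import Pool.Agent.H34.SE.TJ
import Pool.Agent.H89.SE.TP1
import Pool.Agent.H48.SE.TP2
import Pool.Agent.H87.SE.TBb
import Pool.Agent.H87.SE.TBd
import Pool.Agent.H69.SE.THc
import Pool.Agent.H69.SE.TP3

/-! # Part T: assembly -/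

set_option linter.unusedVariables false

open Ordinal Order Set
open scoped ZFSet

namespace SE

open SF

/-- part T from the parts A, B, S, W and two targets of part Z -/
theorem T_parts (AB : T_AB) (AF : T_AF) (AG : T_AG) (AH : T_AH) (BA : T_BA) (BBa : T_BBa)
    (BBc : T_BBc) (BC : T_BC) (BD : T_BD) (BF : T_BF) (BJ : T_BJ) (BK : T_BK)
    (BL : T_BL) (BM : T_BM) (BO : T_BO) (BR : T_BR) (BS : T_BS) (SA : T_SA) (SEh : T_SE)
    (WD : T_WD) (ZX : T_ZX) (ZA : T_ZA) :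
    T_TP1 ∧ T_TP2 ∧ T_TP3 := by
  have TA : T_TA := t_ta BBa BBc
  have TX : T_TX := t_tx
  have TBa : T_TBa := t_tba
  have TBd : T_TBd := pf_TBd
  have TBb : T_TBb := pf_TBb BA BC BD TBa TBd
  have TBc : T_TBc := t_tbc BC BJ TBa TA
  have TBe : T_TBe := pf_TBe BA BC BD TBa TBd TBb
  have TCa : T_TCa := pf_TCa BBa BBc BC BD BJ TBa TBb TBd TBe
  have TCb : T_TCb := pf_TCb BA BC BD BJ BK TBa TBb TCa
  have TCc : T_TCc := pf_TCc AB BA BC BD BJ BL TBa TBd TBb TCa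
  have TCd : T_TCd := pf_TCd BBa BBc BC BD BJ BM BR TBa TBd TBb TCa TCc
  have TDa : T_TDa := pf_TDa AF AG AH BC BD TBa TBb
  have TDb : T_TDb := t_tdb AF AG AH BA BBa BBc BC BD BJ BK TBa TBd TBb TCa TDa
  have TEa : T_TEa := pf_TEa BA BC BD TBa TBd TDa
  have TEb : T_TEb := pf_TEb BA BBa BBc BC BD BJ BO TA TBa TBd TDa TEa
  have TEc : T_TEc := pf_TEc BA BBa BJ BR TA TBd TEa TEb
  have TFa' : T_TFa := TFa BC BD BR SA TX TBb TCa TCb TCc TEc
  have TF : T_TF := t_tf TBe TCa TFa'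
  have TGa : T_TGa := pf_TGa SEh TBa TBb TCa TCb
  have TGb : T_TGb := t_tgb BA BBa BC BD BJ BR TX TBe TCa TCb TCc TEc TF
  have TGc : T_TGc := pf_TGc BA BBa BJ BK BL TBb TCa TCb TCd TF
  have TG : T_TG := pf_TG TGa TGb TGc
  have THa : T_THa := t_tha BA BBa BC BJ BO BR TBa TCd TDa TDb TEc
  have THd : T_THd := H34SE.thd AG AH BA BBa BK
  have THb : T_THb := pf_THb BA BBa BD BJ BK BL BO BR TBa TBc TCa TCb TEc THa THd ZA
  have THc : T_THc := pf_THc BA BBa BD BJ BR SA SEh TBa TBb TBc TCa TCb TEc THa THd TG ZA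
  have TI : T_TI := pf_TI BA BBa BBc BC BD BF BJ BR BS TX TA TBb TBc TEc ZA
  have TJ : T_TJ := H34SE.tj BA BC BD BJ BL TBb TBc TBe TCa TCb TEc TI ZA
  exact ⟨pf_TP1 BJ BL ZX WD THb TJ, pf_TP2 BA BJ BL ZX WD THc TJ TF,
    pf_TP3 BA BC BD BJ BR TX TBa TBb TBc TBe TCa TCb TEc TF TG⟩

end SE
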