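import Pool.Agent.H38.SE.TarZ

/-! # Part T: transfer along isomorphisms; copies. Definitions and targets

`π : ρ → ρ'` is an isomorphism of closed sets of labels below `p` (`Iso`). It maps generic filters
`G ∋ p` to generic filters `gp L π p ρ' G`. -/

set_option linter.unusedVariables false

open Ordinal Order Set
open scoped ZFSet

namespace SE

open SF

namespace TT

theorem rank_fst_le (q : V) : (fst q).rank ≤ q.rank := by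
  by_cases h : ∃ a b, q = ZFSet.pair a b
  · obtain ⟨a, b, rfl⟩ := h
    rw [fst_pair]
    exact le_of_lt (rank_lt_pair_left a b)
  · rw [fst_eq_of_not h]
    simp

theorem rank_snd_le (q : V) : (snd q).rank ≤ q.rank := by
  by_cases h : ∃ a b, q = ZFSet.pair a b
  · obtain ⟨a, b, rfl⟩ := h
    rw [snd_pair]
    exact le_of_lt (rank_lt_pair_right a b)
  · rw [snd_eq_of_not h]
    simp

theorem rank_lS_lt {k y : V} (h : y ∈ lS k) : y.rank < k.rank := by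
  refine lt_of_lt_of_le (ZFSet.rank_lt_of_mem h) ?_
  unfold lS
  exact (rank_fst_le _).trans ((rank_snd_le _).trans (rank_snd_le _))

theorem rank_lG_le (k : V) : (lG k).rank ≤ k.rank := by
  unfold lG
  exact (rank_fst_le _).trans (rank_snd_le _)

end TT

/-! ## Definitions -/

/-- `π` is injective on `ρ` -/
def Ijo (π ρ : V) : Prop := ∀ i ∈ ρ, ∀ j ∈ ρ, app π i = app π j → i = j

/-- `π` is the identity on `s` -/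
def Idn (π s : V) : Prop := ∀ i ∈ s, app π i = i

/-- the identity map of `s` -/
noncomputable def idm (s : V) : V := resS s fun x => x

/-- the tag `g` is free for `X`: no label in `X` has a tag `(g, x)` -/
def Fre (g X : V) : Prop := ∀ j ∈ X, ∀ x, lG j ≠ ZFSet.pair g x

/-- one step of the recursion for the copy: `f` is the copy map on `lS l` -/
noncomputable def cps (L g π0 ρ0 p fl f l : V) : V :=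
  sel (l ∈ ρ0) (app π0 l) (lab (nS 0) (ZFSet.pair g l) (im f (lS l))
    (trn L f (rst (lS l) p) (lS l) (im f (lS l)) (lY l))
    (sel (fl = ∅) (knm L (im f (lS l)) 0)
      (trn L f (rst (lS l) p) (lS l) (im f (lS l)) (lZ l)))
    (knm L (im f (lS l)) 0) (knm L (im f (lS l)) 0))

/-- the copy of the label `l`: `app π0 l` for `l ∈ ρ0`, otherwise a label of type `0` with the tag
`(g, l)`, the support of the copies of the elements of `lS l` and the transported names (below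
`p`) -/
noncomputable def cpy (L g π0 ρ0 p fl l : V) : V :=
  cps L g π0 ρ0 p fl (ZFSet.range fun y : {y // y ∈ lS l} =>
    ZFSet.pair y.1 (cpy L g π0 ρ0 p fl y.1)) l
termination_by l.rank
decreasing_by exact TT.rank_lS_lt y.2

theorem cpy_eq (L g π0 ρ0 p fl l : V) : cpy L g π0 ρ0 p fl l =
    cps L g π0 ρ0 p fl (resS (lS l) (cpy L g π0 ρ0 p fl)) l := by
  rw [cpy]
  rfl

/-- the copy map on `ρ1` -/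
noncomputable def cpm (L g π0 ρ0 p fl ρ1 : V) : V := resS ρ1 (cpy L g π0 ρ0 p fl)

/-- the copy of `ρ1` -/
noncomputable def cpi (L g π0 ρ0 p fl ρ1 : V) : V := imS ρ1 (cpy L g π0 ρ0 p fl)

/-- `π` is an isomorphism of `ρ` onto `ρ'` below `p`, in the ground model; `ρ`, `ρ'` are closed
sets in `H` -/
structure Cx.IsN (D : Cx) (π ρ ρ' p : V) : Prop where
  n : D.N π
  h : ρ ∈ D.H
  h' : ρ' ∈ D.H
  c : Cld D.L ρ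
  c' : Cld D.L ρ'
  i : Iso D.L π ρ ρ' p

/-- the data for a copy: `π0` is an isomorphism of `ρ0` onto `ρ0'` below `p0`; it is extended to
`ρ1`, below `p1`; `g` is a tag which is free for `ρ0'` -/
structure Cx.Cpd (D : Cx) (g π0 ρ0 ρ0' p0 ρ1 p1 fl : V) : Prop where
  i : D.IsN π0 ρ0 ρ0' p0
  h : ρ1 ∈ D.H
  c : Cld D.L ρ1
  sub : ρ0 ⊆ ρ1
  p : p1 ∈ D.P ρ1
  le : Le (rst ρ0 p1) p0
  gH : g ∈ D.H
  fre : Fre g ρ0'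
  fl : fl ∈ D.H

/-- the rules of `k` are preserved by isomorphisms -/
def Cx.ObT (D : Cx) (k : V) : Prop := ∀ π ρ ρ' p, D.IsN π ρ ρ' p → AgZ D.L π ρ p → k ∈ ρ →
  Idn π (insert k (lS k)) → ∀ G, D.Gn ρ G → p ∈ G → ∀ i ∈ ρ, k ∈ lS i →
    (D.Ob k i (gs G (lS i)) ↔ D.Ob k (app π i) (gs (gp D.L π p ρ' G) (lS (app π i))))

/-- `Side k` is preserved by isomorphisms -/
def Cx.SiT (D : Cx) (k : V) : Prop := ∀ π ρ ρ' p, D.IsN π ρ ρ' p → AgZ D.L π ρ p → k ∈ ρ →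
  Idn π (insert k (lS k)) → ∀ G, D.Gn ρ G → p ∈ G →
    ∀ y, (D.Side k ρ G y ↔ D.Side k ρ' (gp D.L π p ρ' G) y)

/-- the class `C(s)` is preserved by isomorphisms -/
def Cx.ClT (D : Cx) (s : V) : Prop := ∀ π ρ ρ' p, D.IsN π ρ ρ' p → AgZ D.L π ρ p → D.N s →
  s ⊆ ρ → Tr s → Idn π s → ∀ G, D.Gn ρ G → p ∈ G →
    (D.Cl s ρ G ↔ D.Cl s ρ' (gp D.L π p ρ' G))

/-! ## Targets -/

/-- TX: free tags -/
def T_TX : Prop := (∀ X, Fre X X) ∧ ∀ g X Y, Fre g Y → X ⊆ Y → Fre g X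

/-- TA: definability of the copies -/
def T_TA : Prop :=
  Tm ZFm (fun _ v => cps (v 0) (v 1) (v 2) (v 3) (v 4) (v 5) (v 6) (v 7)) ∧
  Tm ZFm (fun _ v => cpy (v 0) (v 1) (v 2) (v 3) (v 4) (v 5) (v 6)) ∧
  Tm ZFm (fun _ v => cpm (v 0) (v 1) (v 2) (v 3) (v 4) (v 5) (v 6)) ∧
  Tm ZFm (fun _ v => cpi (v 0) (v 1) (v 2) (v 3) (v 4) (v 5) (v 6)) ∧
  Dfb ZFm (fun _ v => Fre (v 0) (v 1)) ∧ Tm ZFm (fun _ v => idm (v 0))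

/-- TBa: the image of a condition under an injective map -/
def T_TBa : Prop :=
  (∀ π ρ, Ijo π ρ → ∀ q, FF q → dm q ⊆ ρ →
    FF (mv π q) ∧ dm (mv π q) = im π (dm q) ∧
    (∀ i ∈ ρ, (app π i ∈ dm (mv π q) ↔ i ∈ dm q) ∧ app (mv π q) (app π i) = app q i) ∧
    (∀ q', FF q' → dm q' ⊆ ρ → (Le (mv π q') (mv π q) ↔ Le q' q) ∧
      (mv π q' = mv π q → q' = q)) ∧
    ∀ s, s ⊆ ρ → rst (im π s) (mv π q) = mv π (rst s q)) ∧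
  (∀ π s j, j ∈ im π s ↔ ∃ i ∈ s, app π i = j) ∧
  (∀ π ρ, Ijo π ρ → ∀ s, s ⊆ ρ → Ijo π s ∧ (∀ i ∈ ρ, (app π i ∈ im π s ↔ i ∈ s)) ∧
    ∀ s', s' ⊆ ρ → (im π s' ⊆ im π s ↔ s' ⊆ s)) ∧
  (∀ π π' s, (∀ i ∈ s, app π i = app π' i) → im π s = im π' s ∧
    ∀ q, FF q → dm q ⊆ s → mv π q = mv π' q) ∧
  (∀ π s, Idn π s → im π s = s ∧ ∀ q, FF q → dm q ⊆ s → mv π q = q) ∧
  ∀ s, Idn (idm s) s ∧ Ijo (idm s) s ∧ ZFSet.IsFunc s s (idm s)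

/-- TBd: maps between sets of labels, the inverse map -/
def T_TBd : Prop := ∀ π ρ ρ', ZFSet.IsFunc ρ ρ' π →
  Svl π ∧ dm π = ρ ∧ (∀ i ∈ ρ, app π i ∈ ρ') ∧
  (∀ s, s ⊆ ρ → im π s ⊆ ρ' ∧ ZFSet.IsFunc s (im π s) (rst s π) ∧
    (∀ i ∈ s, app (rst s π) i = app π i) ∧ (Ijo π ρ → Ijo (rst s π) s)) ∧
  (Ijo π ρ → (∀ j ∈ ρ', ∃ i ∈ ρ, app π i = j) →
    im π ρ = ρ' ∧ ZFSet.IsFunc ρ' ρ (inv π) ∧ Ijo (inv π) ρ' ∧ inv (inv π) = π ∧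
    (∀ i ∈ ρ, app (inv π) (app π i) = i) ∧ (∀ j ∈ ρ', app π (app (inv π) j) = j) ∧
    (∀ q, FF q → dm q ⊆ ρ → dm (mv π q) ⊆ ρ' ∧ mv (inv π) (mv π q) = q) ∧
    (∀ q, FF q → dm q ⊆ ρ' → dm (mv (inv π) q) ⊆ ρ ∧ mv π (mv (inv π) q) = q) ∧
    (∀ s, s ⊆ ρ → im (inv π) (im π s) = s ∧ (Idn π s → Idn (inv π) s)))

/-- TBb: isomorphisms act on conditions -/
def T_TBb : Prop := ∀ L π ρ ρ' p, Cld L ρ → Cld L ρ' → Iso L π ρ ρ' p →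
  Ijo π ρ ∧ (∀ i ∈ ρ, app π i ∈ ρ') ∧ im π ρ = ρ' ∧ mv π p ∈ Pos L ρ' ∧
  (∀ q ∈ Pos L ρ, Le q p → mv π q ∈ Pos L ρ' ∧ Le (mv π q) (mv π p)) ∧
  (∀ q' ∈ Pos L ρ', Le q' (mv π p) → ∃ q ∈ Pos L ρ, Le q p ∧ mv π q = q') ∧
  (∀ p1 ∈ Pos L ρ, Le p1 p → Iso L π ρ ρ' p1 ∧ (AgZ L π ρ p → AgZ L π ρ p1)) ∧
  ∀ s, s ⊆ ρ → Tr s → Cld L s ∧ Cld L (im π s) ∧ im π s ⊆ ρ' ∧
    Iso L (rst s π) s (im π s) (rst s p) ∧ (AgZ L π ρ p → AgZ L (rst s π) s (rst s p)) ∧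
    ∀ i ∈ s, app (rst s π) i = app π i

/-- TBe: inverse isomorphisms -/
def T_TBe : Prop := ∀ L π ρ ρ' p, Cld L ρ → Cld L ρ' → Iso L π ρ ρ' p →
  Iso L (inv π) ρ' ρ (mv π p) ∧ mv (inv π) (mv π p) = p ∧ inv (inv π) = π ∧
  (AgZ L π ρ p → AgZ L (inv π) ρ' (mv π p)) ∧
  (∀ i ∈ ρ, app (inv π) (app π i) = i) ∧ (∀ j ∈ ρ', app π (app (inv π) j) = j) ∧
  ∀ s, s ⊆ ρ → Idn π s → s ⊆ ρ' ∧ Idn (inv π) s

/-- TBc: the identity map -/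
def T_TBc : Prop := ∀ D : Cx, D.Ok → ∀ s ∈ D.H, Cld D.L s → ∀ p ∈ D.P s,
  D.IsN (idm s) s s p ∧ AgZ D.L (idm s) s p ∧ Idn (idm s) s ∧
  ∀ G, D.Gn s G → p ∈ G → gp D.L (idm s) p s G = G

/-- TCa: images of generic filters -/
def T_TCa : Prop := ∀ D : Cx, D.Ok → ∀ π ρ ρ' p, D.IsN π ρ ρ' p →
  D.IsN (inv π) ρ' ρ (mv π p) ∧ ∀ G, D.Gn ρ G → p ∈ G →
    D.Gn ρ' (gp D.L π p ρ' G) ∧ mv π p ∈ gp D.L π p ρ' G ∧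
    (∀ q ∈ D.P ρ, Le q p → (mv π q ∈ gp D.L π p ρ' G ↔ q ∈ G)) ∧
    (∀ x, D.W (gp D.L π p ρ' G) x ↔ D.W G x) ∧
    gp D.L (inv π) (mv π p) ρ (gp D.L π p ρ' G) = G

/-- TCb: values are preserved -/
def T_TCb : Prop := ∀ D : Cx, D.Ok → ∀ π ρ ρ' p, D.IsN π ρ ρ' p → ∀ G, D.Gn ρ G → p ∈ G →
  (∀ i ∈ ρ, cg (gp D.L π p ρ' G) (app π i) = cg G i ∧
    ev (gp D.L π p ρ' G) (lY (app π i)) = ev G (lY i) ∧
    (AgZ D.L π ρ p → ev (gp D.L π p ρ' G) (lZ (app π i)) = ev G (lZ i))) ∧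
  (AgZ D.L π ρ p → ∀ s, s ⊆ ρ → ∀ x, (Pro (im π s) (gp D.L π p ρ' G) x ↔ Pro s G x)) ∧
  ∀ s, D.N s → s ⊆ ρ → Tr s → Idn π s → im π s = s ∧ s ⊆ ρ' ∧
    gs (gp D.L π p ρ' G) s = gs G s ∧
    ∀ Y, D.N Y → Nam D.L s Y → ev (gp D.L π p ρ' G) Y = ev G Y

/-- TCc: images of generic filters and restrictions -/
def T_TCc : Prop := ∀ D : Cx, D.Ok → ∀ π0 ρ0 ρ0' p0 π ρ ρ' p, D.IsN π0 ρ0 ρ0' p0 →
  D.IsN π ρ ρ' p → ρ0 ⊆ ρ → (∀ i ∈ ρ0, app π i = app π0 i) → Le (rst ρ0 p) p0 →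
  ρ0' ⊆ ρ' ∧ im π ρ0 = ρ0' ∧ ∀ G, D.Gn ρ G → p ∈ G →
    p0 ∈ gs G ρ0 ∧ gs (gp D.L π p ρ' G) ρ0' = gp D.L π0 p0 ρ0' (gs G ρ0)

/-- TCd: restrictions of isomorphisms, extensions of generic filters -/
def T_TCd : Prop := ∀ D : Cx, D.Ok → ∀ π ρ ρ' p, D.IsN π ρ ρ' p → ∀ s, D.N s → s ⊆ ρ → Tr s →
  D.IsN (rst s π) s (im π s) (rst s p) ∧ (∀ i ∈ s, app (rst s π) i = app π i) ∧
  (AgZ D.L π ρ p → AgZ D.L (rst s π) s (rst s p)) ∧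
  (∀ G, D.Gn ρ G → p ∈ G → rst s p ∈ gs G s ∧
    gs (gp D.L π p ρ' G) (im π s) = gp D.L (rst s π) (rst s p) (im π s) (gs G s)) ∧
  ∀ G', D.Gn (im π s) G' → mv π (rst s p) ∈ G' →
    ∃ G, D.Gn ρ G ∧ p ∈ G ∧ gs (gp D.L π p ρ' G) (im π s) = G'

/-- TDa: transported names -/
def T_TDa : Prop :=
  (∀ L π π' p s s' Y, FF p → dm p ⊆ s → (∀ i ∈ s, app π i = app π' i) →
    trn L π p s s' Y = trn L π' p s s' Y) ∧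
  ∀ L π s s' p, Cld L s → Cld L s' → Iso L π s s' p → ∀ Y, Nam L s Y →
    Nam L s' (trn L π p s s' Y) ∧
    (∀ q ∈ Pos L s, Le q p → ∀ b,
      (ZFSet.pair q b ∈ Y ↔ ZFSet.pair (mv π q) b ∈ trn L π p s s' Y)) ∧
    ∀ q ∈ Pos L s', (∀ q' ∈ Pos L s', ¬ (Le q' q ∧ Le q' (mv π p))) → ∀ b ∈ sq,
      (ZFSet.pair q b ∈ trn L π p s s' Y ↔ b ⊆ kc 0)

/-- TDb: values of transported names -/
def T_TDb : Prop := ∀ D : Cx, D.Ok → ∀ π s s' p, D.IsN π s s' p → ∀ Y, D.N Y → Nam D.L s Y →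
  D.N (trn D.L π p s s' Y) ∧ ∀ G', D.Gn s' G' →
    (mv π p ∈ G' → D.Gn s (gp D.L (inv π) (mv π p) s G') ∧
      ev G' (trn D.L π p s s' Y) = ev (gp D.L (inv π) (mv π p) s G') Y) ∧
    (mv π p ∉ G' → ev G' (trn D.L π p s s' Y) = kc 0)

/-- TEa: the components of the copies -/
def T_TEa : Prop := ∀ L g π0 ρ0 ρ0' p fl ρ1, Cld L ρ1 → ρ0 ⊆ ρ1 → Tr ρ0 →
  (∀ i ∈ ρ0, app π0 i ∈ ρ0') → Ijo π0 ρ0 → Fre g ρ0' → p ∈ Pos L ρ1 →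
  ∀ π, π = cpm L g π0 ρ0 p fl ρ1 →
    ZFSet.IsFunc ρ1 (cpi L g π0 ρ0 p fl ρ1) π ∧ Ijo π ρ1 ∧
    (∀ j ∈ cpi L g π0 ρ0 p fl ρ1, ∃ i ∈ ρ1, app π i = j) ∧ (∀ i ∈ ρ0, app π i = app π0 i) ∧
    ∀ l ∈ ρ1, l ∉ ρ0 → app π l ∉ ρ0' ∧
      app π l = lab (nS 0) (ZFSet.pair g l) (im π (lS l))
        (trn L π (rst (lS l) p) (lS l) (im π (lS l)) (lY l))
        (sel (fl = ∅) (knm L (im π (lS l)) 0)
          (trn L π (rst (lS l) p) (lS l) (im π (lS l)) (lZ l)))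
        (knm L (im π (lS l)) 0) (knm L (im π (lS l)) 0)

/-- TEb: the copy is an isomorphism -/
def T_TEb : Prop := ∀ D : Cx, D.Ok → ∀ g π0 ρ0 ρ0' p0 ρ1 p1 fl,
  D.Cpd g π0 ρ0 ρ0' p0 ρ1 p1 fl →
  Cld D.L (cpi D.L g π0 ρ0 p1 fl ρ1) ∧
  Iso D.L (cpm D.L g π0 ρ0 p1 fl ρ1) ρ1 (cpi D.L g π0 ρ0 p1 fl ρ1) p1 ∧
  (fl ≠ ∅ → AgZ D.L π0 ρ0 p0 → AgZ D.L (cpm D.L g π0 ρ0 p1 fl ρ1) ρ1 p1)

/-- TEc: the copy is in the ground model; summary -/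
def T_TEc : Prop := ∀ D : Cx, D.Ok → ∀ g π0 ρ0 ρ0' p0 ρ1 p1 fl,
  D.Cpd g π0 ρ0 ρ0' p0 ρ1 p1 fl →
  ∀ π ρ1', π = cpm D.L g π0 ρ0 p1 fl ρ1 → ρ1' = cpi D.L g π0 ρ0 p1 fl ρ1 →
    D.IsN π ρ1 ρ1' p1 ∧ ρ0' ⊆ ρ1' ∧ (∀ i ∈ ρ0, app π i = app π0 i) ∧
    (fl ≠ ∅ → AgZ D.L π0 ρ0 p0 → AgZ D.L π ρ1 p1) ∧
    (∀ j ∈ ρ1', j ∉ ρ0' → ∃ l ∈ ρ1, l ∉ ρ0 ∧ j = app π l) ∧
    ∀ l ∈ ρ1, l ∉ ρ0 → app π l ∉ ρ0' ∧ lE (app π l) = nS 0 ∧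
      lG (app π l) = ZFSet.pair g l ∧ lS (app π l) = im π (lS l) ∧
      lY (app π l) = trn D.L π (rst (lS l) p1) (lS l) (im π (lS l)) (lY l) ∧
      (fl = ∅ → lZ (app π l) = knm D.L (im π (lS l)) 0) ∧
      (fl ≠ ∅ → lZ (app π l) = trn D.L π (rst (lS l) p1) (lS l) (im π (lS l)) (lZ l))

/-- TFa: secured facts, one direction -/
def T_TFa : Prop := ∀ D : Cx, D.Ok → ∀ π ρ ρ' p, D.IsN π ρ ρ' p → AgZ D.L π ρ p →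
  ∀ G, D.Gn ρ G → p ∈ G → ∀ a x, D.Sec ρ G a x → D.Sec ρ' (gp D.L π p ρ' G) a x

/-- TF: secured facts -/
def T_TF : Prop := ∀ D : Cx, D.Ok → ∀ π ρ ρ' p, D.IsN π ρ ρ' p → AgZ D.L π ρ p →
  ∀ G, D.Gn ρ G → p ∈ G →
    (∀ a x, D.Sec ρ' (gp D.L π p ρ' G) a x ↔ D.Sec ρ G a x) ∧
    ∀ a y, D.SecS ρ' (gp D.L π p ρ' G) a y ↔ D.SecS ρ G a y

/-- TGa: the class `C(s)` -/
def T_TGa : Prop := ∀ D : Cx, D.Ok → D.Tab → ∀ s, (∀ k ∈ s, D.ObT k) → D.ClT s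

/-- TGb: the relation `Side` -/
def T_TGb : Prop := ∀ D : Cx, D.Ok → D.Tab → ∀ k, D.ClT (lS k) → D.SiT k

/-- TGc: the rules -/
def T_TGc : Prop := ∀ D : Cx, D.Ok → D.Tab → ∀ k, D.SiT k → D.ObT k

/-- TG: the rules, the relation `Side` and the classes `C(s)` are preserved -/
def T_TG : Prop := ∀ D : Cx, D.Ok → D.Tab → ∀ k, D.ObT k ∧ D.SiT k ∧ D.ClT k

/-- THa: the values of the names of a copied label -/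
def T_THa : Prop := ∀ D : Cx, D.Ok → ∀ g π0 ρ0 ρ0' p0 ρ1 p1 fl,
  D.Cpd g π0 ρ0 ρ0' p0 ρ1 p1 fl →
  ∀ π ρ1', π = cpm D.L g π0 ρ0 p1 fl ρ1 → ρ1' = cpi D.L g π0 ρ0 p1 fl ρ1 →
    ∀ l ∈ ρ1, l ∉ ρ0 → ∀ G, D.Gn (lS (app π l)) G →
      (fl = ∅ → ev G (lZ (app π l)) = kc 0) ∧
      ((ev G (lY (app π l)) = kc 0 ∧ ev G (lZ (app π l)) = kc 0) ∨
        ∃ G1, D.Gn ρ1 G1 ∧ p1 ∈ G1 ∧ gs (gp D.L π p1 ρ1' G1) (lS (app π l)) = G)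

/-- THd: a label whose coded real and whose promised real are the trivial real -/
def T_THd : Prop := ∀ D : Cx, D.Ok → ∀ i G, D.N i → Lab D.L i → Cld D.L (lS i) →
  D.Gn (lS i) G →
  (ev G (lY i) = kc 0 → ¬ Pro (lS i) G (ev G (lY i))) ∧
  ∀ k ∈ lS i, (ev G (lZ i) = kc 0 ∨ lE k = nS 0) → D.Ob k i G

/-- THb: copies which respect promises are legal -/
def T_THb : Prop := ∀ D : Cx, D.Ful → ∀ s ∈ D.H, s ⊆ D.Lam → Tr s → ∀ ρ' ∈ D.H, Cld D.L ρ' →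
  s ⊆ ρ' → ∀ p' ∈ D.P ρ', (∀ G, D.Gn ρ' G → p' ∈ G → Resp s ρ' G) →
  ∀ g ∈ D.H, Fre g s → cpi D.L g (idm s) s p' ∅ ρ' ⊆ D.Lam

/-- THc: copies of states in `C(s)` are legal -/
def T_THc : Prop := ∀ D : Cx, D.Ful → ∀ s ∈ D.H, s ⊆ D.Lam → Tr s → ∀ ρ' ∈ D.H, Cld D.L ρ' →
  s ⊆ ρ' → ∀ p' ∈ D.P ρ', (∀ G, D.Gn ρ' G → p' ∈ G → D.Cl s ρ' G) →
  ∀ g ∈ D.H, Fre g s → cpi D.L g (idm s) s p' (nS 1) ρ' ⊆ D.Lam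

/-- TI: the generic filter contains a copy of `p'` -/
def T_TI : Prop := ∀ D : Cx, D.Ful → ∀ G, D.Gn D.Lam G → ∀ s ∈ D.H, s ⊆ D.Lam → Tr s →
  ∀ ρ' ∈ D.H, Cld D.L ρ' → s ⊆ ρ' → ∀ p' ∈ D.P ρ', rst s p' ∈ G → ∀ fl ∈ D.H,
  (∀ g ∈ D.H, Fre g s → cpi D.L g (idm s) s p' fl ρ' ⊆ D.Lam) →
  ∃ g ∈ D.H, Fre g s ∧ mv (cpm D.L g (idm s) s p' fl ρ') p' ∈ G

/-- TJ: the pull back of the generic filter -/
def T_TJ : Prop := ∀ D : Cx, D.Ful → ∀ G, D.Gn D.Lam G → ∀ s ∈ D.H, s ⊆ D.Lam → Tr s →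
  ∀ ρ' ∈ D.H, Cld D.L ρ' → s ⊆ ρ' → ∀ p' ∈ D.P ρ', rst s p' ∈ G → ∀ fl ∈ D.H,
  (∀ g ∈ D.H, Fre g s → cpi D.L g (idm s) s p' fl ρ' ⊆ D.Lam) →
  ∃ π ρ'' G', D.IsN π ρ' ρ'' p' ∧ (fl ≠ ∅ → AgZ D.L π ρ' p') ∧ Idn π s ∧ s ⊆ ρ'' ∧
    ρ'' ⊆ D.Lam ∧ D.Gn ρ' G' ∧ p' ∈ G' ∧ gp D.L π p' ρ'' G' = gs G ρ'' ∧
    D.Ex s (gs G s) ρ' G' ∧ ∀ x, D.W G' x ↔ D.W (gs G ρ'') x

end SE
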